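import Mathlib
import Pool.Prelude.Def_F_97ce6499
import Pool.Agent.UlamPrimes.ModThree

set_option autoImplicit false

namespace Pool.Agent.Results.MP_fc18ea_nt.SeedWithoutThree

open Ndec75080

/-- If the process is infinite and the seed `q 0 < ... < q (m-1)` does not contain `3`, then the
last prime of the seed and all terms constructed from it are congruent to `1` modulo `3`. Hence a
seed without `3` whose last prime is congruent to `2` modulo `3` always stops, and so does every
process from a seed without `3` as soon as it reaches a term congruent to `2` modulo `3`. -/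
theorem result : ∀ (m : ℕ) (q : ℕ → ℕ), InfiniteOrbit false m q →
    (∀ i, i < m → q i ≠ 3) → ∀ k, m ≤ k + 1 → q k % 3 = 1 := by
  intro m q h h3 k hk
  have hmono : StrictMono q := h.2.1
  have hp : ∀ k, (q k).Prime := h.2.2.1
  -- no term of the sequence is 3
  have hno : ∀ i, q i ≠ 3 := by
    intro i hi
    rcases Nat.lt_or_ge i m with him | him
    · exact h3 i him hi
    · have h0 := (hp 0).two_le
      have hid : i ≤ 1 := by
        by_contra hcon
        push Not at hcon
        have h1 : q 0 < q 1 := hmono (by omega)
        have h2 : q 1 < q i := hmono (by omega)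
        omega
      have hm0 : 0 < m := h.1
      obtain ⟨j, hj, _⟩ := UlamPrimes.exists_partner h (k := 0) (by omega)
      omega
  have h0 : q k % 3 ≠ 0 := by
    intro h0
    have := (Nat.dvd_prime (hp k)).mp (Nat.dvd_of_mod_eq_zero h0)
    have := hno k
    omega
  have h2 : q k % 3 ≠ 2 := by
    intro h2
    obtain ⟨j, hj, hj2⟩ := UlamPrimes.exists_twin_step h hk h2
    obtain ⟨i, hi, hqi⟩ := UlamPrimes.exists_partner h (k := j) (by omega)
    have := (hp i).two_le
    exact hno i (by omega)
  omega

end Pool.Agent.Results.MP_fc18ea_nt.SeedWithoutThree
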