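import Mathlib
import Pool.Prelude.Def_F_97ce6499
import Pool.Agent.UlamPrimes.ModThree

set_option autoImplicit false

namespace Pool.Agent.Results.MP_fc18ea_nt.TwinDichotomy

open Ndec75080 Filter

/-- If the process is infinite, from whatever seed, then either all but finitely many terms are
congruent to `1` modulo `3`, or `q (k + 1) = q k + 2` for infinitely many `k` (so that there are
infinitely many twin primes, all of them consecutive terms of the sequence). -/
theorem result : ∀ (m : ℕ) (q : ℕ → ℕ), InfiniteOrbit false m q →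
    (∀ᶠ k in atTop, q k % 3 = 1) ∨ (∃ᶠ k in atTop, q (k + 1) = q k + 2) := by
  intro m q h
  have hmono : StrictMono q := h.2.1
  have hp : ∀ k, (q k).Prime := h.2.2.1
  by_cases hfin : ∀ᶠ k in atTop, q k % 3 = 1
  · exact Or.inl hfin
  right
  rw [Filter.not_eventually] at hfin
  rw [Filter.frequently_atTop] at hfin ⊢
  intro a
  obtain ⟨b, hb, hb1⟩ := hfin (max a (max m 4))
  have hba : a ≤ b := le_trans (le_max_left _ _) hb
  have hbm : m ≤ b := le_trans (le_max_left _ _) (le_trans (le_max_right _ _) hb)
  have hb4 : 4 ≤ b := le_trans (le_max_right _ _) (le_trans (le_max_right _ _) hb)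
  have hqb : b ≤ q b := hmono.id_le b
  have h0 : q b % 3 ≠ 0 := by
    intro h0
    have := (Nat.dvd_prime (hp b)).mp (Nat.dvd_of_mod_eq_zero h0)
    omega
  obtain ⟨j, hj, hj2⟩ := UlamPrimes.exists_twin_step h (k := b) (by omega) (by omega)
  exact ⟨j, by omega, hj2⟩

end Pool.Agent.Results.MP_fc18ea_nt.TwinDichotomy
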